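import Pool.Agent.H23.CMC.Targets

/-!
# Row CJ: the conjugate character
-/

set_option autoImplicit false

open NumberField MeasureTheory Set Filter Complex
open scoped nonZeroDivisors Real

namespace Pool.Agent.H51.CMC

open Pool.Agent.H23.CMC
open Pool.Agent.H65.CM4 (Sq nm dg Pl rv)
open Pool.Agent.H65.CMC (Emb ty PrTo IsHk ms IsLk gg GM cG Km Idx cdc Fmc lc)

lemma ty_neg {k : Type} [Field k] [NumberField k] {K : Type} [Field K]
    (Φ : Pl k → K →+* ℂ) (m : Pl k → ℤ) (a : K) :
    ty Φ (-m) a = (starRingEnd ℂ) (ty Φ m a) := by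
  unfold ty
  rw [map_prod]
  apply Finset.prod_congr rfl
  intro v _
  rw [map_zpow₀, map_div₀, Complex.conj_conj, Pi.neg_apply, zpow_neg, ← inv_zpow, inv_div]

theorem pf_CJ  : T_CJ := by
  intro k _ _ _ K _ _ _ Φ f m ψ h
  have hm : ∀ v, |(-m) v| = |m v| := fun v => by rw [Pi.neg_apply, abs_neg]
  refine ⟨⟨h.rk, h.cx, h.emb, ?_⟩, ?_, ?_, ?_, ?_⟩
  · have hk := h.hk
    refine ⟨hk.fne, ?_, ?_, ?_, ?_, ?_, ?_⟩
    · simp only [hk.one, map_one]
    · intro I J
      simp only [hk.mul, map_mul]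
    · intro I hI
      simp only [RCLike.norm_conj, hk.nrm I hI]
    · intro I hI
      simp only [hk.zer I hI, map_zero]
    · intro a n h1 h2
      simp only [hk.pri a n h1 h2, ty_neg]
    · intro P hP hPf
      obtain ⟨a, n, h1, h2, h3⟩ := hk.prm P hP hPf
      refine ⟨a, n, h1, h2, ?_⟩
      rw [ty_neg]
      intro h4
      exact h3 ((starRingEnd ℂ).injective h4)
  · intro I
    by_cases hI : PrTo f I
    · rw [h.hk.nrm I hI]
    · rw [h.hk.zer I hI, norm_zero]; exact zero_le_one
  · unfold ms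
    apply Finset.sum_congr rfl
    intro v _
    rw [Pi.neg_apply, Int.cast_neg, abs_neg]
  · intro s
    unfold GM gg
    simp only [hm]
  · intro s
    unfold gM
    simp only [hm]

end Pool.Agent.H51.CMC
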