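import Pool.Agent.H95.CMC.Targets

/-!
# Row F_LNB: the lines of an ideal modulo `f`
-/

set_option autoImplicit false

open MeasureTheory Set Filter NumberField
open scoped Real nonZeroDivisors

namespace Pool.Agent.H51.CMC

open Pool.Agent.H65.CM4 Pool.Agent.H65.CMC Pool.Agent.H95.CMC

lemma ring_id {R : Type} [CommRing R] (l l' a n t : R) (h : a * n + t = 1) :
    l' - a * l = t * l' - a * (l - n * l') := by
  linear_combination (-l') * h

section

set_option linter.unusedSectionVars false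

variable {k K : Type} [Field k] [NumberField k] [Field K] [NumberField K] [Algebra k K]

lemma mem_ln (f : Ideal (𝓞 k)) (I : Ideal (𝓞 K)) (l x : 𝓞 K) :
    x ∈ ln f I l ↔ ∃ n : 𝓞 k, x - algebraMap (𝓞 k) (𝓞 K) n * l ∈
      f.map (algebraMap (𝓞 k) (𝓞 K)) * I := Iff.rfl

lemma ln_le {f : Ideal (𝓞 k)} {I : Ideal (𝓞 K)} {l l' : 𝓞 K} (h : l ∈ ln f I l') :
    ln f I l ≤ ln f I l' := by
  obtain ⟨n, hn⟩ := (mem_ln f I l' l).mp h
  intro x hx
  obtain ⟨m, hm⟩ := (mem_ln f I l x).mp hx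
  refine (mem_ln f I l' x).mpr ⟨m * n, ?_⟩
  have e : x - algebraMap (𝓞 k) (𝓞 K) (m * n) * l' =
      (x - algebraMap (𝓞 k) (𝓞 K) m * l) +
        algebraMap (𝓞 k) (𝓞 K) m * (l - algebraMap (𝓞 k) (𝓞 K) n * l') := by
    rw [map_mul]; ring
  rw [e]
  exact Ideal.add_mem _ hm (Ideal.mul_mem_left _ _ hn)

lemma self_mem (f : Ideal (𝓞 k)) (I : Ideal (𝓞 K)) (l : 𝓞 K) : l ∈ ln f I l :=
  (mem_ln f I l l).mpr ⟨1, by rw [map_one, one_mul, sub_self]; exact Submodule.zero_mem _⟩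

lemma mem_of_sub {f : Ideal (𝓞 k)} {I : Ideal (𝓞 K)} {l l' : 𝓞 K}
    (h : l - l' ∈ f.map (algebraMap (𝓞 k) (𝓞 K)) * I) : l ∈ ln f I l' :=
  (mem_ln f I l' l).mpr ⟨1, by rw [map_one, one_mul]; exact h⟩

lemma mem_symm {f : Ideal (𝓞 k)} {I : Ideal (𝓞 K)} {l l' : 𝓞 K} (hl' : l' ∈ I)
    (hp : PrTo f (Ideal.span {l})) (h : l ∈ ln f I l') : l' ∈ ln f I l := by
  obtain ⟨n, hn⟩ := (mem_ln f I l' l).mp h
  set F := f.map (algebraMap (𝓞 k) (𝓞 K)) with hF
  have hle : F * I ≤ F := Ideal.mul_le_left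
  have hnF : l - algebraMap (𝓞 k) (𝓞 K) n * l' ∈ F := hle hn
  have htop : Ideal.span {n} ⊔ f = ⊤ := by
    have h1 : (Ideal.span {n} ⊔ f).map (algebraMap (𝓞 k) (𝓞 K)) = ⊤ := by
      rw [eq_top_iff, ← hp.2, sup_le_iff]
      constructor
      · rw [Ideal.span_singleton_le_iff_mem]
        have e : l = (l - algebraMap (𝓞 k) (𝓞 K) n * l') + algebraMap (𝓞 k) (𝓞 K) n * l' := by
          ring
        rw [e]
        apply Ideal.add_mem
        · exact Ideal.map_mono le_sup_right hnF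
        · apply Ideal.mul_mem_right
          exact Ideal.mem_map_of_mem _ (Ideal.mem_sup_left (Ideal.mem_span_singleton_self n))
      · exact Ideal.map_mono le_sup_right
    have hinj : Function.Injective (algebraMap (𝓞 k) (𝓞 K)) :=
      FaithfulSMul.algebraMap_injective _ _
    have hint : (algebraMap (𝓞 k) (𝓞 K)).IsIntegral := by
      intro x
      exact Algebra.IsIntegral.isIntegral x
    exact (Ideal.map_eq_top_iff _ hinj hint).mp h1
  obtain ⟨a, t, ht, hat⟩ := Ideal.mem_span_singleton_sup.mp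
    (show (1 : 𝓞 k) ∈ Ideal.span {n} ⊔ f by rw [htop]; trivial)
  refine (mem_ln f I l l').mpr ⟨a, ?_⟩
  have hat' : algebraMap (𝓞 k) (𝓞 K) a * algebraMap (𝓞 k) (𝓞 K) n +
      algebraMap (𝓞 k) (𝓞 K) t = 1 := by
    rw [← map_mul, ← map_add, hat, map_one]
  rw [ring_id l l' _ _ _ hat']
  exact Ideal.sub_mem _ (Ideal.mul_mem_mul (Ideal.mem_map_of_mem _ ht) hl')
    (Ideal.mul_mem_left _ _ hn)

end

theorem pf_LNB : T_LNB := by
  intro k K _ _ _ _ _ _ _ _ f I hf hI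
  set F := f.map (algebraMap (𝓞 k) (𝓞 K)) with hF
  have hinj : Function.Injective (algebraMap (𝓞 k) (𝓞 K)) :=
    FaithfulSMul.algebraMap_injective _ _
  have hFne : F ≠ ⊥ := by
    rw [hF, Ne, Ideal.map_eq_bot_iff_of_injective hinj]
    exact hf
  have hJ : F * I ≠ ⊥ := by
    rw [Ne, Ideal.mul_eq_bot]
    rintro (h | h)
    · exact hFne h
    · exact hI.1 h
  have hfin : {Λ : Sl k K | ∃ l ∈ I, PrTo f (Ideal.span {l}) ∧ Λ = ln f I l}.Finite := by
    have : Finite (𝓞 K ⧸ (F * I)) := Ideal.finiteQuotientOfFreeOfNeBot _ hJ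
    refine (Set.finite_range (fun q : 𝓞 K ⧸ (F * I) => ln f I (Quotient.out q))).subset ?_
    rintro Λ ⟨l, -, -, rfl⟩
    refine ⟨Ideal.Quotient.mk _ l, ?_⟩
    have h1 : Ideal.Quotient.mk (F * I) (Quotient.out (Ideal.Quotient.mk (F * I) l)) =
        Ideal.Quotient.mk (F * I) l := Quotient.out_eq _
    have h2 := Ideal.Quotient.eq.mp h1
    have h3 := Ideal.Quotient.eq.mp h1.symm
    exact le_antisymm (ln_le (mem_of_sub h2)) (ln_le (mem_of_sub h3))
  have hmem : ∀ Λ : Sl k K, Λ ∈ Ln f I ↔ ∃ l ∈ I, PrTo f (Ideal.span {l}) ∧ Λ = ln f I l := by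
    intro Λ
    unfold Ln
    rw [dif_pos hfin, Set.Finite.mem_toFinset]
    rfl
  refine ⟨hmem, ?_, ?_⟩
  · intro l hl hp Λ hΛ
    obtain ⟨l', hl', hp', rfl⟩ := (hmem Λ).mp hΛ
    constructor
    · intro h
      exact le_antisymm (ln_le (mem_symm hl' hp h)) (ln_le h)
    · intro h
      rw [h]
      exact self_mem f I l
  · intro Λ hΛ x hx
    obtain ⟨l, hl, -, rfl⟩ := (hmem Λ).mp hΛ
    obtain ⟨n, hn⟩ := (mem_ln f I l x).mp hx
    have e : x = (x - algebraMap (𝓞 k) (𝓞 K) n * l) + algebraMap (𝓞 k) (𝓞 K) n * l := by ring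
    rw [e]
    have hle : F * I ≤ I := Ideal.mul_le_right
    exact Ideal.add_mem I (hle hn) (Ideal.mul_mem_left I _ hl)

end Pool.Agent.H51.CMC
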