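import Pool.Agent.H95.CMC.Targets

/-!
# Row F_MUM: a lattice and a form determine the line up to conjugation and units
-/

set_option autoImplicit false

open MeasureTheory Set Filter NumberField
open scoped Real nonZeroDivisors

namespace Pool.Agent.H51.CMC.MUM

open Pool.Agent.H65.CM4 Pool.Agent.H65.CMC Pool.Agent.H95.CMC
open Pool.Agent.H95.CM (lin lin_add lin_smul Nr mem_Nr un T_COV T_HUR T_TPE T_MEM T_IXL T_NTP
  T_NF2 T_DTW T_QNV T_UNI T_CYC T_NRI T_HBD)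

section Conj

set_option linter.unusedSectionVars false

variable {k K : Type} [Field k] [NumberField k] [Field K] [NumberField K] [Algebra k K]

/-- the conjugate of an ideal -/
noncomputable def cj (I : (Ideal (𝓞 K))⁰) (e : K ≃ₐ[k] K) : (Ideal (𝓞 K))⁰ :=
  ⟨Ideal.map (RingOfIntegers.mapRingEquiv e.toRingEquiv).toRingHom (I : Ideal (𝓞 K)), by
    apply mem_nonZeroDivisors_of_ne_zero
    intro h
    have h1 : Ideal.map (RingOfIntegers.mapRingEquiv e.toRingEquiv).toRingHom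
        (I : Ideal (𝓞 K)) = ⊥ := h
    rw [Ideal.map_eq_bot_iff_of_injective] at h1
    · exact nonZeroDivisors.coe_ne_zero I h1
    · exact (RingOfIntegers.mapRingEquiv e.toRingEquiv).injective⟩

theorem mem_cj (I : (Ideal (𝓞 K))⁰) (e : K ≃ₐ[k] K) (w : 𝓞 K) :
    w ∈ (cj I e : Ideal (𝓞 K)) ↔ ∃ y ∈ (I : Ideal (𝓞 K)), e (y : K) = (w : K) := by
  change w ∈ Ideal.map (RingOfIntegers.mapRingEquiv e.toRingEquiv).toRingHom
    (I : Ideal (𝓞 K)) ↔ _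
  rw [Ideal.mem_map_iff_of_surjective (RingOfIntegers.mapRingEquiv e.toRingEquiv).toRingHom
    (RingOfIntegers.mapRingEquiv e.toRingEquiv).surjective]
  constructor
  · rintro ⟨y, hy, h⟩
    exact ⟨y, hy, by rw [← h]; rfl⟩
  · rintro ⟨y, hy, h⟩
    exact ⟨y, hy, RingOfIntegers.ext h⟩

/-- a line generates the ideal -/
lemma le_span (f : Ideal (𝓞 k)) (I : Ideal (𝓞 K)) (l : 𝓞 K)
    (hp : PrTo f (Ideal.span {l})) : I ≤ Ideal.span (ln f I l : Set (𝓞 K)) := by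
  set F := f.map (algebraMap (𝓞 k) (𝓞 K)) with hF
  have h1 : I * Ideal.span {l} ⊔ I * F = I := by
    rw [← Ideal.mul_sup, hp.2, Ideal.mul_top]
  refine h1.symm.le.trans ?_
  rw [sup_le_iff]
  constructor
  · have h2 : I * Ideal.span {l} ≤ Ideal.span {l} := Ideal.mul_le_right
    refine h2.trans ?_
    rw [Ideal.span_singleton_le_iff_mem]
    apply Ideal.subset_span
    refine ⟨1, ?_⟩
    rw [map_one, one_mul, sub_self]
    exact Submodule.zero_mem _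
  · rw [mul_comm]
    intro x hx
    apply Ideal.subset_span
    refine ⟨0, ?_⟩
    rw [map_zero, zero_mul, sub_zero]
    exact hx

/-- the ideal of the integers of the form `t e(y)`, `y ∈ I` -/
def sc (I : Ideal (𝓞 K)) (e : K ≃ₐ[k] K) (t : K) : Ideal (𝓞 K) where
  carrier := {x | ∃ y ∈ I, (x : K) = t * e (y : K)}
  zero_mem' := ⟨0, I.zero_mem, by change (0 : K) = t * e 0; rw [map_zero, mul_zero]⟩
  add_mem' := by
    rintro x x' ⟨y, hy, h⟩ ⟨y', hy', h'⟩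
    refine ⟨y + y', I.add_mem hy hy', ?_⟩
    change (x : K) + (x' : K) = t * e ((y : K) + (y' : K))
    rw [h, h', map_add]
    ring
  smul_mem' := by
    rintro c x ⟨y, hy, h⟩
    refine ⟨RingOfIntegers.mapRingEquiv e.symm.toRingEquiv c * y, I.mul_mem_left _ hy, ?_⟩
    change (c : K) * (x : K) = t * e (e.symm (c : K) * (y : K))
    rw [h, map_mul, AlgEquiv.apply_symm_apply]
    ring

/-- the ideal of the integers `y` with `t e(y) ∈ J` -/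
def cs (J : Ideal (𝓞 K)) (e : K ≃ₐ[k] K) (t : K) : Ideal (𝓞 K) where
  carrier := {y | ∃ x ∈ J, (x : K) = t * e (y : K)}
  zero_mem' := ⟨0, J.zero_mem, by change (0 : K) = t * e 0; rw [map_zero, mul_zero]⟩
  add_mem' := by
    rintro y y' ⟨x, hx, h⟩ ⟨x', hx', h'⟩
    refine ⟨x + x', J.add_mem hx hx', ?_⟩
    change (x : K) + (x' : K) = t * e ((y : K) + (y' : K))
    rw [h, h', map_add]
    ring
  smul_mem' := by
    rintro c y ⟨x, hx, h⟩
    refine ⟨RingOfIntegers.mapRingEquiv e.toRingEquiv c * x, J.mul_mem_left _ hx, ?_⟩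
    change e (c : K) * (x : K) = t * e ((c : K) * (y : K))
    rw [h, map_mul]
    ring

lemma mk_eq (I J : (Ideal (𝓞 K))⁰) (e : K ≃ₐ[k] K) (t : K) (ht : t ≠ 0)
    (h : ∀ x : 𝓞 K, x ∈ (J : Ideal (𝓞 K)) → ∃ y ∈ (I : Ideal (𝓞 K)), (x : K) = t * e (y : K))
    (h' : ∀ y : 𝓞 K, y ∈ (I : Ideal (𝓞 K)) → ∃ x ∈ (J : Ideal (𝓞 K)), (x : K) = t * e (y : K)) :
    ClassGroup.mk0 (cj I e) = ClassGroup.mk0 J := by
  symm
  rw [ClassGroup.mk0_eq_mk0_iff]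
  obtain ⟨a, d, hd, had⟩ := IsFractionRing.div_surjective (𝓞 K) t
  have hd0 : d ≠ 0 := nonZeroDivisors.ne_zero hd
  have hd0' : (d : K) ≠ 0 := by
    rw [Ne, RingOfIntegers.coe_eq_zero_iff]; exact hd0
  have had' : (a : K) / (d : K) = t := had
  have ha0 : a ≠ 0 := by
    rintro rfl
    apply ht
    rw [← had']
    simp
  refine ⟨d, a, hd0, ha0, ?_⟩
  ext z
  rw [Ideal.mem_span_singleton_mul, Ideal.mem_span_singleton_mul]
  constructor
  · rintro ⟨x, hx, rfl⟩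
    obtain ⟨w, hw, hwx⟩ := h x hx
    refine ⟨RingOfIntegers.mapRingEquiv e.toRingEquiv w, (mem_cj _ _ _).2 ⟨w, hw, rfl⟩, ?_⟩
    apply RingOfIntegers.ext
    change (a : K) * e (w : K) = (d : K) * (x : K)
    rw [hwx, ← had']
    field_simp
  · rintro ⟨w', hw', rfl⟩
    obtain ⟨w, hw, hww⟩ := (mem_cj _ _ _).1 hw'
    obtain ⟨x, hx, hxw⟩ := h' w hw
    refine ⟨x, hx, ?_⟩
    apply RingOfIntegers.ext
    change (d : K) * (x : K) = (a : K) * (w' : K)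
    rw [hxw, ← hww, ← had']
    field_simp

/-- two factors with the same image differ by a unit -/
lemma unit_of (I J : (Ideal (𝓞 K))⁰) (e : K ≃ₐ[k] K) (t t' : K)
    (h : ∀ x : 𝓞 K, x ∈ (J : Ideal (𝓞 K)) → ∃ y ∈ (I : Ideal (𝓞 K)), (x : K) = t * e (y : K))
    (h' : ∀ y : 𝓞 K, y ∈ (I : Ideal (𝓞 K)) → ∃ x ∈ (J : Ideal (𝓞 K)), (x : K) = t * e (y : K))
    (g : ∀ x : 𝓞 K, x ∈ (J : Ideal (𝓞 K)) → ∃ y ∈ (I : Ideal (𝓞 K)), (x : K) = t' * e (y : K))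
    (g' : ∀ y : 𝓞 K, y ∈ (I : Ideal (𝓞 K)) → ∃ x ∈ (J : Ideal (𝓞 K)), (x : K) = t' * e (y : K)) :
    ∃ u : (𝓞 K)ˣ, t = t' * ((u : 𝓞 K) : K) := by
  obtain ⟨a, d, hd, had⟩ := IsFractionRing.div_surjective (𝓞 K) t
  obtain ⟨a', d', hd', had'⟩ := IsFractionRing.div_surjective (𝓞 K) t'
  have e1 : (a : K) / (d : K) = t := had
  have e2 : (a' : K) / (d' : K) = t' := had'
  have hd0 : (d : K) ≠ 0 := by
    rw [Ne, RingOfIntegers.coe_eq_zero_iff]; exact nonZeroDivisors.ne_zero hd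
  have hd0' : (d' : K) ≠ 0 := by
    rw [Ne, RingOfIntegers.coe_eq_zero_iff]; exact nonZeroDivisors.ne_zero hd'
  have key : ∀ (s s' : K) (b c b' c' : 𝓞 K), (c : K) ≠ 0 → (c' : K) ≠ 0 →
      (b : K) / (c : K) = s → (b' : K) / (c' : K) = s' →
      (∀ y : 𝓞 K, y ∈ (I : Ideal (𝓞 K)) → ∃ x ∈ (J : Ideal (𝓞 K)), (x : K) = s * e (y : K)) →
      (∀ x : 𝓞 K, x ∈ (J : Ideal (𝓞 K)) → ∃ y ∈ (I : Ideal (𝓞 K)), (x : K) = s' * e (y : K)) →
      Ideal.span {b * c'} * (cj I e : Ideal (𝓞 K)) ≤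
        Ideal.span {b' * c} * (cj I e : Ideal (𝓞 K)) := by
    intro s s' b c b' c' hc hc' hs hs' k1 k2 z hz
    rw [Ideal.mem_span_singleton_mul] at hz ⊢
    obtain ⟨w', hw', rfl⟩ := hz
    obtain ⟨w, hw, hww⟩ := (mem_cj _ _ _).1 hw'
    obtain ⟨x, hx, hxw⟩ := k1 w hw
    obtain ⟨y, hy, hxy⟩ := k2 x hx
    refine ⟨RingOfIntegers.mapRingEquiv e.toRingEquiv y, (mem_cj _ _ _).2 ⟨y, hy, rfl⟩, ?_⟩
    apply RingOfIntegers.ext
    change (b' : K) * (c : K) * e (y : K) = (b : K) * (c' : K) * (w' : K)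
    have h3 : s * (w' : K) = s' * e (y : K) := by rw [← hxy, hxw, hww]
    rw [← hs, ← hs'] at h3
    field_simp at h3
    linear_combination -h3
  have hle1 := key t t' a d a' d' hd0 hd0' e1 e2 h' g
  have hle2 := key t' t a' d' a d hd0' hd0 e2 e1 g' h
  have heq := le_antisymm hle1 hle2
  have hcj : (cj I e : Ideal (𝓞 K)) ≠ 0 := nonZeroDivisors.coe_ne_zero _
  have h4 := mul_right_cancel₀ hcj heq
  rw [Ideal.span_singleton_eq_span_singleton] at h4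
  obtain ⟨u, hu⟩ := h4.symm
  refine ⟨u, ?_⟩
  have h5 : (a' : K) * (d : K) * ((u : 𝓞 K) : K) = (a : K) * (d' : K) := by
    have := congrArg (fun z : 𝓞 K => (z : K)) hu
    push_cast at this
    exact this
  rw [← e1, ← e2]
  field_simp
  linear_combination -h5

end Conj

theorem pf_MUM (hINM : T_INM) (hLNB : T_LNB) (hUNI : T_UNI) : T_MUM := by
  intro k K _ _ _ _ _ _ _ _ f b B y R M Q hf hb
  classical
  have h2 : Module.finrank k K = 2 := Algebra.IsQuadraticExtension.finrank_eq_two k K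
  have : FiniteDimensional k K := Module.finite_of_finrank_pos (by rw [h2]; norm_num)
  set S := {p : ClassGroup (𝓞 K) × Sl k K | p.2 ∈ Ln f (R.I p.1 : Ideal (𝓞 K)) ∧ R.M p.2 = M ∧
      R.Q p.2 = Q} with hS
  rcases S.eq_empty_or_nonempty with hemp | ⟨p0, hp0⟩
  · rw [hemp, Set.ncard_empty]; exact Nat.zero_le _
  set H := (Units.map (algebraMap (𝓞 k) (𝓞 K)).toMonoidHom).range with hH
  have hun : un k K = Nat.card ((𝓞 K)ˣ ⧸ H) := rfl
  have hpos : 0 < un k K := hUNI k K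
  have hfin : Finite ((𝓞 K)ˣ ⧸ H) := Nat.finite_of_card_ne_zero (by rw [← hun]; exact hpos.ne')
  -- generation
  have hgen : ∀ p ∈ S, ∀ J : Ideal (𝓞 K), (∀ x ∈ p.2, x ∈ J) → (R.I p.1 : Ideal (𝓞 K)) ≤ J := by
    intro p hp J hJ
    obtain ⟨l, hl, hpl, hΛ⟩ := ((hLNB k K f (R.I p.1) hf (R.pr p.1)).1 p.2).mp hp.1
    refine (le_span f (R.I p.1) l hpl).trans ?_
    rw [Ideal.span_le]
    intro x hx
    exact hJ x (by rw [hΛ]; exact hx)
  have hsub : ∀ p ∈ S, ∀ x ∈ p.2, x ∈ (R.I p.1 : Ideal (𝓞 K)) := fun p hp =>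
    (hLNB k K f (R.I p.1) hf (R.pr p.1)).2.2 p.2 hp.1
  have hOl : ∀ p ∈ S, Ol b p.2 (R.α p.2) (R.β p.2) (R.μ p.2) M Q := by
    intro p hp
    have := R.ol p.1 p.2 hp.1
    rwa [hp.2.1, hp.2.2] at this
  -- the relation
  set Rel : ClassGroup (𝓞 K) × Sl k K → (K ≃ₐ[k] K) → K → Prop := fun p e t =>
    t ≠ 0 ∧ (∀ x ∈ p.2, ∃ z ∈ p0.2, (x : K) = t * e (z : K)) ∧
      ∀ z ∈ p0.2, ∃ x ∈ p.2, (x : K) = t * e (z : K) with hRel
  have hex : ∀ p ∈ S, ∃ (e : K ≃ₐ[k] K) (t : K), Rel p e t := by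
    intro p hp
    obtain ⟨e, t, ht, he⟩ := hINM k K K b b p0.2 p.2 _ _ _ _ _ _ M Q hb hb (hOl p0 hp0) (hOl p hp)
    refine ⟨e, t, ht, ?_, ?_⟩
    · intro x hx
      obtain ⟨u, hu⟩ := (hOl p hp).mem x hx
      have huM : u ∈ M := by
        rw [(hOl p hp).lat]; exact ⟨x, hx, hu.symm⟩
      rw [(hOl p0 hp0).lat] at huM
      obtain ⟨z, hz, hzu⟩ := huM
      exact ⟨z, hz, by rw [← hu, he, hzu]⟩
    · intro z hz
      obtain ⟨u, hu⟩ := (hOl p0 hp0).mem z hz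
      have huM : u ∈ M := by
        rw [(hOl p0 hp0).lat]; exact ⟨z, hz, hu.symm⟩
      rw [(hOl p hp).lat] at huM
      obtain ⟨x, hx, hxu⟩ := huM
      exact ⟨x, hx, by rw [hxu, he, hu]⟩
  have hid1 : ∀ p ∈ S, ∀ e t, Rel p e t → ∀ x : 𝓞 K, x ∈ (R.I p.1 : Ideal (𝓞 K)) →
      ∃ z ∈ (R.I p0.1 : Ideal (𝓞 K)), (x : K) = t * e (z : K) := by
    intro p hp e t hr x hx
    refine hgen p hp (sc (R.I p0.1) e t) ?_ hx
    intro x' hx'
    obtain ⟨z, hz, h⟩ := hr.2.1 x' hx'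
    exact ⟨z, hsub p0 hp0 z hz, h⟩
  have hid2 : ∀ p ∈ S, ∀ e t, Rel p e t → ∀ z : 𝓞 K, z ∈ (R.I p0.1 : Ideal (𝓞 K)) →
      ∃ x ∈ (R.I p.1 : Ideal (𝓞 K)), (x : K) = t * e (z : K) := by
    intro p hp e t hr z hz
    refine hgen p0 hp0 (cs (R.I p.1) e t) ?_ hz
    intro z' hz'
    obtain ⟨x, hx, h⟩ := hr.2.2 z' hz'
    exact ⟨x, hsub p hp x hx, h⟩
  -- the base points
  set base : (K ≃ₐ[k] K) → ClassGroup (𝓞 K) × Sl k K := fun e =>
    if h : ∃ p ∈ S, ∃ t, Rel p e t then h.choose else p0 with hbase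
  set g : (K ≃ₐ[k] K) × ((𝓞 K)ˣ ⧸ H) → ClassGroup (𝓞 K) × Sl k K := fun q =>
    ((base q.1).1, (base q.1).2.map (LinearMap.mulLeft (𝓞 k) ((Quotient.out q.2 : (𝓞 K)ˣ) : 𝓞 K)))
    with hg
  have hSg : S ⊆ g '' Set.univ := by
    intro p hp
    obtain ⟨e, t, hr⟩ := hex p hp
    have hE : ∃ p ∈ S, ∃ t, Rel p e t := ⟨p, hp, t, hr⟩
    have hbe : base e = hE.choose := by
      simp only [hbase]
      rw [dif_pos hE]
    obtain ⟨hq, t', hr'⟩ := hE.choose_spec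
    rw [← hbe] at hq hr'
    set q := base e with hqdef
    have hcl : p.1 = q.1 := by
      have i1 := mk_eq (R.I p0.1) (R.I p.1) e t hr.1 (hid1 p hp e t hr) (hid2 p hp e t hr)
      have i2 := mk_eq (R.I p0.1) (R.I q.1) e t' hr'.1 (hid1 q hq e t' hr') (hid2 q hq e t' hr')
      rw [R.cl] at i1 i2
      rw [← i1, ← i2]
    obtain ⟨u, hu⟩ := unit_of (R.I p0.1) (R.I p.1) e t t' (hid1 p hp e t hr)
      (hid2 p hp e t hr) (by rw [hcl]; exact hid1 q hq e t' hr')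
      (by rw [hcl]; exact hid2 q hq e t' hr')
    obtain ⟨η, hη⟩ := QuotientGroup.mk_out_eq_mul H u
    obtain ⟨ν, hν⟩ := η.2
    have hout : ((Quotient.out (QuotientGroup.mk u : (𝓞 K)ˣ ⧸ H) : (𝓞 K)ˣ) : 𝓞 K) =
        (u : 𝓞 K) * algebraMap (𝓞 k) (𝓞 K) (ν : 𝓞 k) := by
      have h6 : (Quotient.out (QuotientGroup.mk u : (𝓞 K)ˣ ⧸ H) : (𝓞 K)ˣ) = u * η := hη
      rw [h6, Units.val_mul, ← hν]
      rfl
    have hinv : algebraMap (𝓞 k) (𝓞 K) (ν : 𝓞 k) *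
        algebraMap (𝓞 k) (𝓞 K) ((ν⁻¹ : (𝓞 k)ˣ) : 𝓞 k) = 1 := by
      rw [← map_mul, Units.mul_inv, map_one]
    refine ⟨(e, QuotientGroup.mk u), Set.mem_univ _, ?_⟩
    apply Prod.ext
    · exact hcl.symm
    · change q.2.map (LinearMap.mulLeft (𝓞 k)
        ((Quotient.out (QuotientGroup.mk u : (𝓞 K)ˣ ⧸ H) : (𝓞 K)ˣ) : 𝓞 K)) = p.2
      rw [hout]
      ext x
      rw [Submodule.mem_map]
      constructor
      · rintro ⟨z, hz, rfl⟩
        rw [LinearMap.mulLeft_apply]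
        obtain ⟨w, hw, hzw⟩ := hr'.2.1 _ (q.2.smul_mem (ν : 𝓞 k) hz)
        obtain ⟨x, hx, hxw⟩ := hr.2.2 w hw
        have : (u : 𝓞 K) * algebraMap (𝓞 k) (𝓞 K) (ν : 𝓞 k) * z = x := by
          apply RingOfIntegers.ext
          rw [hxw, hu]
          rw [Algebra.smul_def] at hzw
          push_cast at hzw ⊢
          linear_combination ((u : 𝓞 K) : K) * hzw
        rw [this]
        exact hx
      · intro hx
        obtain ⟨w, hw, hxw⟩ := hr.2.1 x hx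
        obtain ⟨z, hz, hzw⟩ := hr'.2.2 w hw
        refine ⟨((ν⁻¹ : (𝓞 k)ˣ) : 𝓞 k) • z, q.2.smul_mem _ hz, ?_⟩
        rw [LinearMap.mulLeft_apply, Algebra.smul_def]
        have h7 : (u : 𝓞 K) * algebraMap (𝓞 k) (𝓞 K) (ν : 𝓞 k) *
            (algebraMap (𝓞 k) (𝓞 K) ((ν⁻¹ : (𝓞 k)ˣ) : 𝓞 k) * z) = (u : 𝓞 K) * z := by
          rw [mul_assoc, ← mul_assoc (algebraMap (𝓞 k) (𝓞 K) (ν : 𝓞 k)), hinv, one_mul]
        rw [h7]
        apply RingOfIntegers.ext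
        rw [hxw, hu]
        push_cast
        linear_combination ((u : 𝓞 K) : K) * hzw
  calc S.ncard ≤ (g '' Set.univ).ncard := Set.ncard_le_ncard hSg (Set.toFinite _)
    _ ≤ (Set.univ : Set ((K ≃ₐ[k] K) × ((𝓞 K)ˣ ⧸ H))).ncard := Set.ncard_image_le
    _ = Nat.card (K ≃ₐ[k] K) * Nat.card ((𝓞 K)ˣ ⧸ H) := by
        rw [Set.ncard_univ, Nat.card_prod]
    _ ≤ 2 * un k K := by
        rw [← hun]
        apply Nat.mul_le_mul_right
        rw [Nat.card_eq_fintype_card]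
        exact AlgEquiv.card_le.trans h2.le

end Pool.Agent.H51.CMC.MUM
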